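import Mathlib
import Pool.Agent.H95R2.BG.Final2

/-!
Gaps between consecutive primes of length at most `240` in terms of the integers `m` with
`6m - 1` or `6m + 1` prime (the half-missing integers of `n = 6xy ± x ± y`).
-/

set_option autoImplicit false

open Finset Filter

namespace Pool.Agent.H688R3.ShortGaps

/-- `6m + s` and `6(m+h) + t` are consecutive primes with difference at most `240` -/
def Pat (m h : ℕ) (s t : ℤ) : Prop :=
  ∃ p q : ℕ, p.Prime ∧ q.Prime ∧ p < q ∧ q ≤ p + 240 ∧ (∀ r : ℕ, p < r → r < q → ¬ r.Prime) ∧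
    (p : ℤ) = 6 * m + s ∧ (q : ℤ) = 6 * (m + h) + t

/-- representable by one of the four forms -/
def Rep (n : ℕ) : Prop :=
  ∃ x y : ℤ, 1 ≤ y ∧ y ≤ x ∧ ((n : ℤ) = 6 * x * y + x + y ∨ (n : ℤ) = 6 * x * y + x - y ∨
    (n : ℤ) = 6 * x * y - x + y ∨ (n : ℤ) = 6 * x * y - x - y)

lemma prime_mod6 {p : ℕ} (hp : p.Prime) (h5 : 5 ≤ p) : p % 6 = 1 ∨ p % 6 = 5 := by
  have h2 : ¬ 2 ∣ p := fun h => by
    have := (Nat.prime_dvd_prime_iff_eq Nat.prime_two hp).1 h
    omega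
  have h3 : ¬ 3 ∣ p := fun h => by
    have := (Nat.prime_dvd_prime_iff_eq Nat.prime_three hp).1 h
    omega
  omega

/-- the number `m` and the sign attached to a prime `p = 6m ± 1` -/
lemma exists_sign {p : ℕ} (hp : p.Prime) (h5 : 5 ≤ p) :
    ∃ s : ℤ, (s = 1 ∨ s = -1) ∧ (p : ℤ) = 6 * (((p + 1) / 6 : ℕ) : ℤ) + s := by
  rcases prime_mod6 hp h5 with h | h
  · exact ⟨1, Or.inl rfl, by omega⟩
  · exact ⟨-1, Or.inr rfl, by omega⟩

/-- not prime gives a factorisation -/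
lemma exists_factor {n : ℕ} (hn : 2 ≤ n) (h : ¬ n.Prime) : ∃ a b : ℕ, 2 ≤ a ∧ 2 ≤ b ∧ n = a * b := by
  obtain ⟨a, ha, ha1, ha2⟩ := (Nat.not_prime_iff_exists_dvd_lt hn).1 h
  obtain ⟨b, rfl⟩ := ha
  refine ⟨a, b, ha1, ?_, rfl⟩
  by_contra hb
  have : b = 0 ∨ b = 1 := by omega
  rcases this with rfl | rfl <;> simp at *

lemma symm_rep {n : ℕ} {x y : ℤ} (hx : 1 ≤ x) (hy : 1 ≤ y)
    (h : (n : ℤ) = 6 * x * y + x + y ∨ (n : ℤ) = 6 * x * y + x - y ∨
    (n : ℤ) = 6 * x * y - x + y ∨ (n : ℤ) = 6 * x * y - x - y) : Rep n := by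
  rcases le_total y x with hyx | hxy
  · exact ⟨x, y, hy, hyx, h⟩
  · refine ⟨y, x, hx, hxy, ?_⟩
    rcases h with h | h | h | h
    · left; rw [h]; ring
    · right; right; left; rw [h]; ring
    · right; left; rw [h]; ring
    · right; right; right; rw [h]; ring

/-- `m` is missing if and only if `6m - 1` and `6m + 1` are prime -/
lemma missing_iff {m : ℕ} (hm : 1 ≤ m) :
    ¬ Rep m ↔ (6 * m - 1).Prime ∧ (6 * m + 1).Prime := by
  constructor
  · intro hR
    by_contra hcon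
    apply hR
    rw [not_and_or] at hcon
    rcases hcon with h | h
    · obtain ⟨a, b, ha, hb, hab⟩ := exists_factor (by omega) h
      have hab' : 6 * m = a * b + 1 := by omega
      have hmod : (a * b + 1) % 6 = 0 := by omega
      have hcases : (a % 6 = 1 ∧ b % 6 = 5) ∨ (a % 6 = 5 ∧ b % 6 = 1) := by
        have h1 : a % 6 < 6 := Nat.mod_lt _ (by norm_num)
        have h2 : b % 6 < 6 := Nat.mod_lt _ (by norm_num)
        rw [Nat.add_mod, Nat.mul_mod] at hmod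
        interval_cases (a % 6) <;> interval_cases (b % 6) <;> simp at hmod ⊢
      rcases hcases with ⟨h1, h2⟩ | ⟨h1, h2⟩
      · obtain ⟨x, hx⟩ : ∃ x, a = 6 * x + 1 := ⟨a / 6, by omega⟩
        obtain ⟨y, hy⟩ : ∃ y, b + 1 = 6 * y := ⟨(b + 1) / 6, by omega⟩
        refine symm_rep (x := x) (y := y) (by omega) (by omega) ?_
        right; right; left
        have h3 : (b : ℤ) = 6 * y - 1 := by omega
        have h4 : (6 : ℤ) * m = a * b + 1 := by exact_mod_cast hab'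
        have h5 : (a : ℤ) = 6 * x + 1 := by exact_mod_cast hx
        rw [h3, h5] at h4
        linarith
      · obtain ⟨x, hx⟩ : ∃ x, b = 6 * x + 1 := ⟨b / 6, by omega⟩
        obtain ⟨y, hy⟩ : ∃ y, a + 1 = 6 * y := ⟨(a + 1) / 6, by omega⟩
        refine symm_rep (x := x) (y := y) (by omega) (by omega) ?_
        right; right; left
        have h3 : (a : ℤ) = 6 * y - 1 := by omega
        have h4 : (6 : ℤ) * m = a * b + 1 := by exact_mod_cast hab'
        have h5 : (b : ℤ) = 6 * x + 1 := by exact_mod_cast hx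
        rw [h3, h5] at h4
        linarith
    · obtain ⟨a, b, ha, hb, hab⟩ := exists_factor (by omega) h
      have hcases : (a % 6 = 1 ∧ b % 6 = 1) ∨ (a % 6 = 5 ∧ b % 6 = 5) := by
        have hmod : (a * b) % 6 = 1 := by omega
        have h1 : a % 6 < 6 := Nat.mod_lt _ (by norm_num)
        have h2 : b % 6 < 6 := Nat.mod_lt _ (by norm_num)
        rw [Nat.mul_mod] at hmod
        interval_cases (a % 6) <;> interval_cases (b % 6) <;> simp at hmod ⊢
      rcases hcases with ⟨h1, h2⟩ | ⟨h1, h2⟩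
      · obtain ⟨x, hx⟩ : ∃ x, a = 6 * x + 1 := ⟨a / 6, by omega⟩
        obtain ⟨y, hy⟩ : ∃ y, b = 6 * y + 1 := ⟨b / 6, by omega⟩
        refine symm_rep (x := x) (y := y) (by omega) (by omega) ?_
        left
        have h4 : (6 : ℤ) * m + 1 = a * b := by exact_mod_cast hab
        have h3 : (b : ℤ) = 6 * y + 1 := by exact_mod_cast hy
        have h5 : (a : ℤ) = 6 * x + 1 := by exact_mod_cast hx
        rw [h3, h5] at h4
        linarith
      · obtain ⟨x, hx⟩ : ∃ x, a + 1 = 6 * x := ⟨(a + 1) / 6, by omega⟩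
        obtain ⟨y, hy⟩ : ∃ y, b + 1 = 6 * y := ⟨(b + 1) / 6, by omega⟩
        refine symm_rep (x := x) (y := y) (by omega) (by omega) ?_
        right; right; right
        have h4 : (6 : ℤ) * m + 1 = a * b := by exact_mod_cast hab
        have h3 : (b : ℤ) = 6 * y - 1 := by omega
        have h5 : (a : ℤ) = 6 * x - 1 := by omega
        rw [h3, h5] at h4
        linarith
  · rintro ⟨hp, hq⟩ ⟨x, y, hy, hyx, h⟩
    obtain ⟨a, rfl⟩ := Int.eq_ofNat_of_zero_le (show 0 ≤ x by omega)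
    obtain ⟨b, rfl⟩ := Int.eq_ofNat_of_zero_le (show 0 ≤ y by omega)
    have ha : 1 ≤ a := by omega
    have hb : 1 ≤ b := by omega
    rcases h with h | h | h | h
    · refine Nat.not_prime_of_mul_eq (a := 6 * a + 1) (b := 6 * b + 1) ?_ (by omega) (by omega) hq
      have : ((6 * a + 1 : ℕ) : ℤ) * ((6 * b + 1 : ℕ) : ℤ) = ((6 * m + 1 : ℕ) : ℤ) := by
        push_cast; rw [h]; ring
      exact_mod_cast this
    · refine Nat.not_prime_of_mul_eq (a := 6 * a - 1) (b := 6 * b + 1) ?_ (by omega) (by omega) hp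
      have : ((6 * a - 1 : ℕ) : ℤ) * ((6 * b + 1 : ℕ) : ℤ) = ((6 * m - 1 : ℕ) : ℤ) := by
        rw [Nat.cast_sub (by omega), Nat.cast_sub (by omega)]
        push_cast; rw [h]; ring
      exact_mod_cast this
    · refine Nat.not_prime_of_mul_eq (a := 6 * a + 1) (b := 6 * b - 1) ?_ (by omega) (by omega) hp
      have : ((6 * a + 1 : ℕ) : ℤ) * ((6 * b - 1 : ℕ) : ℤ) = ((6 * m - 1 : ℕ) : ℤ) := by
        rw [Nat.cast_sub (by omega), Nat.cast_sub (by omega)]
        push_cast; rw [h]; ring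
      exact_mod_cast this
    · refine Nat.not_prime_of_mul_eq (a := 6 * a - 1) (b := 6 * b - 1) ?_ (by omega) (by omega) hq
      have : ((6 * a - 1 : ℕ) : ℤ) * ((6 * b - 1 : ℕ) : ℤ) = ((6 * m + 1 : ℕ) : ℤ) := by
        rw [Nat.cast_sub (by omega), Nat.cast_sub (by omega)]
        push_cast; rw [h]; ring
      exact_mod_cast this


/-- counting with sets and with finsets -/
lemma ncard_eq {P : ℕ → Prop} [DecidablePred P] {x : ℝ} (hx : 0 ≤ x) :
    (Set.ncard {n : ℕ | 1 ≤ n ∧ (n : ℝ) ≤ x ∧ P n} : ℝ) =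
      (((Icc 1 ⌊x⌋₊).filter (fun n : ℕ => P n)).card : ℝ) := by
  have hS : {n : ℕ | 1 ≤ n ∧ (n : ℝ) ≤ x ∧ P n} =
      (((Icc 1 ⌊x⌋₊).filter (fun n : ℕ => P n) : Finset ℕ) : Set ℕ) := by
    ext n
    simp only [Set.mem_ofPred_eq, Finset.coe_filter, Finset.mem_Icc, Nat.le_floor_iff hx, and_assoc]
  rw [hS, Set.ncard_coe_finset]

lemma nth_ge (n : ℕ) : n + 2 ≤ Nat.nth Nat.Prime n := by
  induction n with
  | zero => exact (Nat.prime_nth_prime 0).two_le
  | succ n ih =>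
    have h : Nat.nth Nat.Prime n < Nat.nth Nat.Prime (n + 1) :=
      Nat.nth_strictMono Nat.infinite_setOfPred_prime (Nat.lt_succ_self n)
    omega

lemma nth_ge_five {n : ℕ} (hn : 2 ≤ n) : 5 ≤ Nat.nth Nat.Prime n := by
  have h1 := nth_ge n
  have h2 := Nat.prime_nth_prime n
  by_contra hcon
  have h3 : Nat.nth Nat.Prime n = 4 := by omega
  rw [h3] at h2
  exact absurd h2 (by decide)

/-- a short gap gives a pattern -/
lemma pat_of_gap {n : ℕ} (hn : 2 ≤ n)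
    (hg : Nat.nth Nat.Prime (n + 1) - Nat.nth Nat.Prime n ≤ 240) :
    ∃ h : ℕ, h ≤ 40 ∧ ∃ s t : ℤ, (s = 1 ∨ s = -1) ∧ (t = 1 ∨ t = -1) ∧
      Pat ((Nat.nth Nat.Prime n + 1) / 6) h s t := by
  have hp := Nat.prime_nth_prime n
  have hq := Nat.prime_nth_prime (n + 1)
  have h5 := nth_ge_five hn
  have h5' := nth_ge_five (n := n + 1) (by omega)
  have hlt : Nat.nth Nat.Prime n < Nat.nth Nat.Prime (n + 1) :=
    Nat.nth_strictMono Nat.infinite_setOfPred_prime (Nat.lt_succ_self n)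
  have hno : ∀ r : ℕ, Nat.nth Nat.Prime n < r → r < Nat.nth Nat.Prime (n + 1) → ¬ r.Prime := by
    intro r h1 h2 hr
    obtain ⟨k, hk⟩ : ∃ k, Nat.nth Nat.Prime k = r :=
      ⟨Nat.count Nat.Prime r, Nat.nth_count hr⟩
    rw [← hk] at h1 h2
    have h3 := (Nat.nth_strictMono Nat.infinite_setOfPred_prime).lt_iff_lt.1 h1
    have h4 := (Nat.nth_strictMono Nat.infinite_setOfPred_prime).lt_iff_lt.1 h2
    omega
  obtain ⟨s, hs, hps⟩ := exists_sign hp h5
  obtain ⟨t, ht, hqt⟩ := exists_sign hq h5'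
  set p := Nat.nth Nat.Prime n with hpdef
  set q := Nat.nth Nat.Prime (n + 1) with hqdef
  refine ⟨(q + 1) / 6 - (p + 1) / 6, by omega, s, t, hs, ht, p, q, hp, hq, hlt, by omega, hno, hps, ?_⟩
  rw [hqt]
  have : (p + 1) / 6 ≤ (q + 1) / 6 := by omega
  push_cast [Nat.cast_sub this]
  ring

lemma rpow_absorb (C : ℝ) {δ : ℝ} (hδ : 0 < δ) (a : ℝ) :
    ∀ᶠ x : ℝ in atTop, C * x ^ a ≤ x ^ (a + δ) := by
  filter_upwards [(tendsto_rpow_atTop hδ).eventually_ge_atTop C, eventually_gt_atTop (0 : ℝ)]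
    with x h1 h2
  rw [Real.rpow_add h2, mul_comm (x ^ a)]
  exact mul_le_mul_of_nonneg_right h1 (Real.rpow_nonneg h2.le _)

/-- the union of all patterns -/
def Some (m : ℕ) : Prop := ∃ h : ℕ, h ≤ 40 ∧ ∃ s t : ℤ, (s = 1 ∨ s = -1) ∧ (t = 1 ∨ t = -1) ∧
  Pat m h s t

open Classical in
lemma count_some (ε : ℝ) (hε : 0 < ε) : ∀ᶠ x : ℝ in atTop,
    x ^ (1 - ε) ≤ (((Icc 1 ⌊x⌋₊).filter (fun m : ℕ => Some m)).card : ℝ) := by
  set e : ℝ := min ε 1 with he
  have he0 : 0 < e := lt_min hε one_pos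
  have he1 : e ≤ 1 := min_le_right _ _
  filter_upwards [Pool.Agent.H95R2.BG.gaps240 (e / 2) (by positivity),
    rpow_absorb 3 (δ := e / 2) (by positivity) (1 - e), eventually_ge_atTop (1 : ℝ)] with x hx h3 h1
  set G := (Icc 1 ⌊x⌋₊).filter (fun n : ℕ =>
      Nat.nth Nat.Prime n ≤ x ∧ Nat.nth Nat.Prime (n + 1) - Nat.nth Nat.Prime n ≤ 240) with hG
  set U := (Icc 1 ⌊x⌋₊).filter (fun m : ℕ => Some m) with hU
  have hx0 : 0 ≤ x := by linarith
  have hmap : ∀ n ∈ G.erase 1, (Nat.nth Nat.Prime n + 1) / 6 ∈ U := by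
    intro n hn
    rw [mem_erase, hG, mem_filter, mem_Icc] at hn
    obtain ⟨hn1, ⟨hn2, hn3⟩, hn4, hn5⟩ := hn
    have hn6 : 2 ≤ n := by omega
    have h5 := nth_ge_five hn6
    rw [hU, mem_filter, mem_Icc]
    refine ⟨⟨by omega, ?_⟩, pat_of_gap hn6 hn5⟩
    have h6 : Nat.nth Nat.Prime n ≤ ⌊x⌋₊ := Nat.le_floor hn4
    omega
  have hfib : (G.erase 1).card ≤ 2 * U.card := by
    have h7 : (G.erase 1).card ≤
        2 * ((G.erase 1).image (fun n => (Nat.nth Nat.Prime n + 1) / 6)).card := by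
      apply card_le_mul_card_image
      intro a ha
      have h8 : ((G.erase 1).filter (fun n => (Nat.nth Nat.Prime n + 1) / 6 = a)).card ≤
          ({6 * a - 1, 6 * a + 1} : Finset ℕ).card := by
        apply card_le_card_of_injOn (fun n => Nat.nth Nat.Prime n)
        · intro n hn
          rw [mem_coe, mem_filter, mem_erase, hG, mem_filter, mem_Icc] at hn
          obtain ⟨⟨hn1, ⟨hn2, hn3⟩, hn4, hn5⟩, hn6⟩ := hn
          have h5 := nth_ge_five (n := n) (by omega)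
          have h6 := prime_mod6 (Nat.prime_nth_prime n) h5
          simp only [coe_insert, coe_singleton, Set.mem_insert_iff, Set.mem_singleton_iff]
          omega
        · intro n _ n' _ h
          exact (Nat.nth_strictMono Nat.infinite_setOfPred_prime).injective h
      exact h8.trans card_le_two
    refine h7.trans (Nat.mul_le_mul_left _ (card_le_card ?_))
    intro a ha
    rw [mem_image] at ha
    obtain ⟨n, hn, rfl⟩ := ha
    exact hmap n hn
  have hG1 : G.card ≤ 2 * U.card + 1 := by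
    have := pred_card_le_card_erase (s := G) (a := 1)
    omega
  have hG2 : (G.card : ℝ) ≤ 2 * U.card + 1 := by exact_mod_cast hG1
  have h9 : x ^ (1 - ε) ≤ x ^ (1 - e) := by
    apply Real.rpow_le_rpow_of_exponent_le h1
    have := min_le_left ε 1
    linarith
  have h10 : (1 : ℝ) ≤ x ^ (1 - e) := Real.one_le_rpow h1 (by linarith)
  have h11 : (1 - e) + e / 2 = 1 - e / 2 := by ring
  rw [h11] at h3
  have h12 : x ^ (1 - e / 2) ≤ 2 * (U.card : ℝ) + 1 := hx.trans hG2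
  linarith

/-- one fixed pattern is frequent -/
theorem exists_pattern : ∃ h : ℕ, h ≤ 40 ∧ ∃ s t : ℤ, (s = 1 ∨ s = -1) ∧ (t = 1 ∨ t = -1) ∧
    ∀ ε : ℝ, 0 < ε → ∃ᶠ x : ℝ in atTop, x ^ (1 - ε) ≤
      (Set.ncard {m : ℕ | 1 ≤ m ∧ (m : ℝ) ≤ x ∧ Pat m h s t} : ℝ) := by
  classical
  by_contra hcon
  push Not at hcon
  -- the index set
  obtain ⟨I, memI, cardI⟩ : ∃ I : Finset (ℕ × ℤ × ℤ),
      (∀ i : ℕ × ℤ × ℤ, i ∈ I ↔ i.1 < 41 ∧ (i.2.1 = 1 ∨ i.2.1 = -1) ∧ (i.2.2 = 1 ∨ i.2.2 = -1)) ∧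
      I.card = 164 := by
    refine ⟨(range 41) ×ˢ (({1, -1} : Finset ℤ) ×ˢ ({1, -1} : Finset ℤ)), fun i => ?_, ?_⟩
    · simp only [mem_product, mem_range, mem_insert, mem_singleton]
    · rw [card_product, card_product, card_range]
      rfl
  have hI : ∀ i ∈ I, ∃ ε : ℝ, 0 < ε ∧ ∀ᶠ x : ℝ in atTop,
      (((Icc 1 ⌊x⌋₊).filter (fun m : ℕ => Pat m i.1 i.2.1 i.2.2)).card : ℝ) ≤ x ^ (1 - ε) := by
    intro i hi
    rw [memI] at hi
    obtain ⟨ε, hε, h⟩ := hcon i.1 (by omega) i.2.1 i.2.2 hi.2.1 hi.2.2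
    refine ⟨ε, hε, ?_⟩
    filter_upwards [h, eventually_ge_atTop (0 : ℝ)] with x hx hx0
    rw [ncard_eq hx0] at hx
    exact hx.le
  choose! f hf0 hf using hI
  obtain ⟨e, he0, he⟩ : ∃ e : ℝ, 0 < e ∧ ∀ i ∈ I, e ≤ f i := by
    have hne : I.Nonempty := card_pos.1 (by rw [cardI]; norm_num)
    obtain ⟨i0, hi0, hmin⟩ := exists_min_image I f hne
    exact ⟨f i0, hf0 i0 hi0, hmin⟩
  have hall : ∀ᶠ x : ℝ in atTop, ∀ i ∈ I,
      (((Icc 1 ⌊x⌋₊).filter (fun m : ℕ => Pat m i.1 i.2.1 i.2.2)).card : ℝ) ≤ x ^ (1 - f i) :=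
    (eventually_all_finset I).2 hf
  obtain ⟨x, hx1, hx2, hx3, hx4⟩ := (hall.and ((count_some (e / 2) (by positivity)).and
    ((rpow_absorb (165 : ℝ) (δ := e / 2) (by positivity) (1 - e)).and
      (eventually_gt_atTop (1 : ℝ))))).exists
  have hsub : (Icc 1 ⌊x⌋₊).filter (fun m : ℕ => Some m) ⊆
      I.biUnion (fun i => (Icc 1 ⌊x⌋₊).filter (fun m : ℕ => Pat m i.1 i.2.1 i.2.2)) := by
    intro m hm
    rw [mem_filter] at hm
    obtain ⟨hm1, h, hh, s, t, hs, ht, hpat⟩ := hm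
    exact mem_biUnion.2 ⟨(h, s, t), (memI _).2 ⟨by omega, hs, ht⟩, mem_filter.2 ⟨hm1, hpat⟩⟩
  have hcard := (card_le_card hsub).trans card_biUnion_le
  have hcard' : (((Icc 1 ⌊x⌋₊).filter (fun m : ℕ => Some m)).card : ℝ) ≤
      ∑ i ∈ I, (((Icc 1 ⌊x⌋₊).filter (fun m : ℕ => Pat m i.1 i.2.1 i.2.2)).card : ℝ) := by
    exact_mod_cast hcard
  have hsum : ∑ i ∈ I, (((Icc 1 ⌊x⌋₊).filter (fun m : ℕ => Pat m i.1 i.2.1 i.2.2)).card : ℝ) ≤
      ∑ _i ∈ I, x ^ (1 - e) := by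
    refine sum_le_sum fun i hi => (hx1 i hi).trans ?_
    apply Real.rpow_le_rpow_of_exponent_le hx4.le
    have := he i hi
    linarith
  rw [sum_const, cardI, nsmul_eq_mul] at hsum
  have hpos : 0 < x ^ (1 - e) := Real.rpow_pos_of_pos (by linarith) _
  have h11 : (1 - e) + e / 2 = 1 - e / 2 := by ring
  rw [h11] at hx3
  push_cast at hsum
  linarith

/-- `Q1` is the pattern `h = 0`, `s = -1`, `t = 1` -/
lemma missing_iff_pat {m : ℕ} (hm : 1 ≤ m) : ¬ Rep m ↔ Pat m 0 (-1) 1 := by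
  rw [missing_iff hm]
  constructor
  · rintro ⟨hp, hq⟩
    refine ⟨6 * m - 1, 6 * m + 1, hp, hq, by omega, by omega, ?_, by omega, by push_cast; ring⟩
    intro r h1 h2 hr
    have : r = 6 * m := by omega
    rw [this] at hr
    have h3 := (Nat.prime_dvd_prime_iff_eq Nat.prime_two hr).1 ⟨3 * m, by ring⟩
    omega
  · rintro ⟨p, q, hp, hq, -, -, -, h1, h2⟩
    have e1 : p = 6 * m - 1 := by omega
    have e2 : q = 6 * m + 1 := by
      push_cast at h2
      omega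
    rw [← e1, ← e2]
    exact ⟨hp, hq⟩

end Pool.Agent.H688R3.ShortGaps
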