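import Pool.Agent.H120R2.CliqueDefs

/-!
Covers by `r`-sets, their least size and its density `1 - π(K_m^r)`, for general `r`; direct sums
and the superadditive inequality.
-/

set_option autoImplicit false

open Finset Filter Topology

namespace Pool.Agent.H688R3.TuranGen

open Pool.Agent.H120R2.Clique

/-- a family of `r`-sets with a member inside every `m`-set -/
def Cov {n : ℕ} (r m : ℕ) (F : Finset (Finset (Fin n))) : Prop :=
  (∀ e ∈ F, e.card = r) ∧ ∀ S : Finset (Fin n), S.card = m → ∃ e ∈ F, e ⊆ S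

/-- the least size of a cover, `C(n, r) - ex(n, K_m^r)` -/
noncomputable def c (r m n : ℕ) : ℝ := (n.choose r : ℝ) - ex n r m

/-- the covering density -/
noncomputable def t (r m : ℕ) : ℝ := 1 - turanDensity r m

lemma c_le_card {r m n : ℕ} {F : Finset (Finset (Fin n))} (hF : Cov r m F) :
    c r m n ≤ F.card := by
  have h := ex_ge_of_cover (k := r) (m := m) F (fun A hA => by
    obtain ⟨e, he, heA⟩ := hF.2 A hA
    exact ⟨e, he, hF.1 e he, heA⟩)
  have h' : (n.choose r : ℝ) ≤ ex n r m + F.card := by exact_mod_cast h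
  unfold c
  linarith

lemma exists_cov {r m : ℕ} (hm : r ≤ m) (n : ℕ) :
    ∃ F : Finset (Finset (Fin n)), Cov r m F ∧ (F.card : ℝ) = c r m n := by
  classical
  have hne : ((((univ : Finset (Fin n)).powersetCard r).powerset).filter
      (fun G => ¬ HasClique G r m)).Nonempty := by
    refine ⟨∅, ?_⟩
    rw [mem_filter]
    refine ⟨by simp, ?_⟩
    rintro ⟨A, hA, hAs⟩
    have h1 : (A.powersetCard r).card = 0 := by
      rw [Finset.subset_empty.1 hAs]; rfl
    rw [card_powersetCard, hA] at h1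
    have := Nat.choose_pos hm
    omega
  obtain ⟨G, hG, he⟩ := Finset.exists_mem_eq_sup _ hne Finset.card
  have hex : ex n r m = G.card := he
  rw [mem_filter, mem_powerset] at hG
  refine ⟨(univ : Finset (Fin n)).powersetCard r \ G, ⟨?_, ?_⟩, ?_⟩
  · intro e he
    exact (mem_powersetCard.1 (mem_sdiff.1 he).1).2
  · intro S hS
    by_contra hcon
    push Not at hcon
    apply hG.2
    refine ⟨S, hS, fun e he => ?_⟩
    rw [mem_powersetCard] at he
    by_contra heG
    exact hcon e (mem_sdiff.2 ⟨mem_powersetCard.2 ⟨subset_univ _, he.2⟩, heG⟩) he.1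
  · rw [card_sdiff_of_subset hG.1, Nat.cast_sub (card_le_card hG.1), card_powersetCard, card_univ,
      Fintype.card_fin]
    unfold c
    rw [hex]

lemma c_nonneg {r m : ℕ} (hm : r ≤ m) (n : ℕ) : 0 ≤ c r m n := by
  obtain ⟨F, -, hF⟩ := exists_cov hm n
  rw [← hF]
  exact Nat.cast_nonneg _

lemma c_mono {r m : ℕ} (hm : r ≤ m) (n : ℕ) : c r (m + 1) n ≤ c r m n := by
  obtain ⟨F, hF, hFc⟩ := exists_cov hm n
  rw [← hFc]
  apply c_le_card
  refine ⟨hF.1, fun S hS => ?_⟩
  obtain ⟨S', hS', hc⟩ := exists_subset_card_eq (s := S) (n := m) (by omega)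
  obtain ⟨e, he, heS⟩ := hF.2 S' hc
  exact ⟨e, he, heS.trans hS'⟩

lemma choose_pos' {r n : ℕ} (hn : r ≤ n) : (0 : ℝ) < (n.choose r : ℝ) := by
  exact_mod_cast Nat.choose_pos hn

lemma tendsto_c (r m : ℕ) :
    Tendsto (fun n : ℕ => c r m n / (n.choose r : ℝ)) atTop (𝓝 (t r m)) := by
  refine ((ratio_tendsto r m).const_sub 1).congr' ?_
  filter_upwards [eventually_ge_atTop r] with n hn
  have := choose_pos' hn
  unfold c
  rw [sub_div, div_self this.ne']

lemma t_nonneg {r m : ℕ} (hm : r ≤ m) : 0 ≤ t r m :=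
  ge_of_tendsto' (tendsto_c r m) fun n => div_nonneg (c_nonneg hm n) (Nat.cast_nonneg _)

lemma t_mono {r m : ℕ} (hm : r ≤ m) : t r (m + 1) ≤ t r m :=
  le_of_tendsto_of_tendsto' (tendsto_c r (m + 1)) (tendsto_c r m) fun n =>
    div_le_div_of_nonneg_right (c_mono hm n) (Nat.cast_nonneg _)

lemma density_le {r m n : ℕ} (hn : r ≤ n) :
    turanDensity r m ≤ (ex n r m : ℝ) / (n.choose r : ℝ) := by
  have h1 : Tendsto (fun n : ℕ => (ex (n + r) r m : ℝ) / ((n + r).choose r : ℝ)) atTop
      (𝓝 (turanDensity r m)) :=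
    (tendsto_add_atTop_iff_nat (f := fun n : ℕ => (ex n r m : ℝ) / (n.choose r : ℝ)) r).mpr
      (ratio_tendsto r m)
  have h2 := (ratio_antitone r m).le_of_tendsto h1 (n - r)
  rwa [Nat.sub_add_cancel hn] at h2

lemma c_le_t (r m n : ℕ) : c r m n ≤ t r m * (n.choose r : ℝ) := by
  rcases Nat.lt_or_ge n r with h | h
  · unfold c
    rw [Nat.choose_eq_zero_of_lt h]
    have : (0 : ℝ) ≤ ex n r m := Nat.cast_nonneg _
    simp only [Nat.cast_zero, mul_zero]
    linarith
  · have h1 := density_le (m := m) h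
    have h2 := choose_pos' h
    rw [le_div_iff₀ h2] at h1
    unfold c t
    linarith

/-- direct sums -/
lemma c_add {r a b : ℕ} (ha : r ≤ a) (hb : r ≤ b) (hr : 1 ≤ r) (n₁ n₂ : ℕ) :
    c r (a + b - 1) (n₁ + n₂) ≤ c r a n₁ + c r b n₂ := by
  classical
  obtain ⟨F, hF, hFc⟩ := exists_cov ha n₁
  obtain ⟨G, hG, hGc⟩ := exists_cov hb n₂
  set K : Finset (Finset (Fin (n₁ + n₂))) :=
    F.image (fun s => s.map (Fin.castAddEmb n₂)) ∪ G.image (fun s => s.map (Fin.natAddEmb n₁))
    with hKdef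
  have hK : Cov r (a + b - 1) K := by
    refine ⟨fun e he => ?_, fun S hS => ?_⟩
    · simp only [hKdef, mem_union, mem_image] at he
      rcases he with ⟨s, hs, rfl⟩ | ⟨s, hs, rfl⟩
      · rw [card_map]; exact hF.1 s hs
      · rw [card_map]; exact hG.1 s hs
    · have hcard : (univ.filter (fun i : Fin n₁ => Fin.castAdd n₂ i ∈ S)).card +
          (univ.filter (fun j : Fin n₂ => Fin.natAdd n₁ j ∈ S)).card = a + b - 1 := by
        have h1 : S.card = ∑ i : Fin (n₁ + n₂), if i ∈ S then 1 else 0 := by simp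
        rw [← hS, h1, Fin.sum_univ_add, card_filter, card_filter]
      rcases Nat.lt_or_ge (univ.filter (fun i : Fin n₁ => Fin.castAdd n₂ i ∈ S)).card a with h | h
      · have h2 : b ≤ (univ.filter (fun j : Fin n₂ => Fin.natAdd n₁ j ∈ S)).card := by omega
        obtain ⟨S', hS', hc⟩ := exists_subset_card_eq h2
        obtain ⟨e, he, heS⟩ := hG.2 S' hc
        refine ⟨e.map (Fin.natAddEmb n₁), ?_, ?_⟩
        · simp only [hKdef, mem_union, mem_image]
          exact Or.inr ⟨e, he, rfl⟩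
        · intro x hx
          rw [Finset.mem_map] at hx
          obtain ⟨y, hy, rfl⟩ := hx
          exact (mem_filter.1 (hS' (heS hy))).2
      · obtain ⟨S', hS', hc⟩ := exists_subset_card_eq h
        obtain ⟨e, he, heS⟩ := hF.2 S' hc
        refine ⟨e.map (Fin.castAddEmb n₂), ?_, ?_⟩
        · simp only [hKdef, mem_union, mem_image]
          exact Or.inl ⟨e, he, rfl⟩
        · intro x hx
          rw [Finset.mem_map] at hx
          obtain ⟨y, hy, rfl⟩ := hx
          exact (mem_filter.1 (hS' (heS hy))).2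
  have h1 := c_le_card hK
  refine h1.trans ?_
  rw [← hFc, ← hGc]
  have h2 : K.card ≤ F.card + G.card :=
    (card_union_le _ _).trans (add_le_add card_image_le card_image_le)
  exact_mod_cast h2

lemma desc_scale {k n : ℕ} (hkn : k ≤ n) (r : ℕ) :
    k.descFactorial r * n ^ r ≤ n.descFactorial r * k ^ r := by
  induction r with
  | zero => simp
  | succ r ih =>
    rw [Nat.descFactorial_succ, Nat.descFactorial_succ, pow_succ, pow_succ]
    have h1 : (k - r) * n ≤ (n - r) * k := by
      rcases Nat.lt_or_ge k r with h | h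
      · have : k - r = 0 := by omega
        rw [this]; simp
      · obtain ⟨k', rfl⟩ := Nat.exists_eq_add_of_le h
        obtain ⟨n', rfl⟩ := Nat.exists_eq_add_of_le hkn
        have e1 : r + k' - r = k' := by omega
        have e2 : r + k' + n' - r = k' + n' := by omega
        rw [e1, e2]
        nlinarith
    calc (k - r) * k.descFactorial r * (n ^ r * n)
        = (k.descFactorial r * n ^ r) * ((k - r) * n) := by ring
      _ ≤ (n.descFactorial r * k ^ r) * ((n - r) * k) := Nat.mul_le_mul ih h1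
      _ = (n - r) * n.descFactorial r * (k ^ r * k) := by ring

lemma choose_scale {k n r : ℕ} (hkn : k ≤ n) (hn : 1 ≤ n) :
    (k.choose r : ℝ) ≤ ((k : ℝ) / n) ^ r * (n.choose r : ℝ) := by
  have h := desc_scale hkn r
  rw [Nat.descFactorial_eq_factorial_mul_choose, Nat.descFactorial_eq_factorial_mul_choose] at h
  have h1 : k.choose r * n ^ r ≤ n.choose r * k ^ r := by
    have : r.factorial * (k.choose r * n ^ r) ≤ r.factorial * (n.choose r * k ^ r) := by
      calc r.factorial * (k.choose r * n ^ r) = r.factorial * k.choose r * n ^ r := by ring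
        _ ≤ r.factorial * n.choose r * k ^ r := h
        _ = _ := by ring
    exact Nat.le_of_mul_le_mul_left this r.factorial_pos
  have h2 : (k.choose r : ℝ) * (n : ℝ) ^ r ≤ (n.choose r : ℝ) * (k : ℝ) ^ r := by exact_mod_cast h1
  have hn' : (0 : ℝ) < n := by exact_mod_cast hn
  rw [div_pow, div_mul_eq_mul_div, le_div_iff₀ (by positivity)]
  linarith

/-- limiting direct sum inequality -/
lemma t_add_le {r a b : ℕ} (ha : r ≤ a) (hb : r ≤ b) (hr : 1 ≤ r) {x : ℝ} (hx0 : 0 ≤ x)
    (hx1 : x ≤ 1) :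
    t r (a + b - 1) ≤ t r a * x ^ r + t r b * (1 - x) ^ r := by
  have hfl : Tendsto (fun n : ℕ => ((⌊x * n⌋₊ : ℕ) : ℝ) / n) atTop (𝓝 x) :=
    (tendsto_nat_floor_mul_div_atTop hx0).comp tendsto_natCast_atTop_atTop
  have hlim : Tendsto (fun n : ℕ => t r a * (((⌊x * n⌋₊ : ℕ) : ℝ) / n) ^ r
      + t r b * (1 - ((⌊x * n⌋₊ : ℕ) : ℝ) / n) ^ r) atTop
      (𝓝 (t r a * x ^ r + t r b * (1 - x) ^ r)) :=
    ((hfl.pow r).const_mul _).add (((hfl.const_sub 1).pow r).const_mul _)
  refine le_of_tendsto_of_tendsto (tendsto_c r (a + b - 1)) hlim ?_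
  filter_upwards [eventually_ge_atTop r] with n hn
  have hfle : ⌊x * n⌋₊ ≤ n := by
    have : ⌊x * n⌋₊ ≤ ⌊(n : ℝ)⌋₊ := Nat.floor_le_floor (by
      have : (0 : ℝ) ≤ n := by positivity
      nlinarith)
    simpa using this
  set k := ⌊x * n⌋₊ with hk
  have h1 := c_add ha hb hr k (n - k)
  rw [Nat.add_sub_cancel' hfle] at h1
  have h3 := c_le_t r a k
  have h4 := c_le_t r b (n - k)
  have h5 := choose_scale (r := r) hfle (by omega)
  have h6 := choose_scale (r := r) (Nat.sub_le n k) (by omega)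
  have hnpos : (0 : ℝ) < n := by exact_mod_cast (show 0 < n by omega)
  have h7 : (((n - k : ℕ) : ℝ) / n) = 1 - (k : ℝ) / n := by
    rw [Nat.cast_sub hfle, sub_div, div_self hnpos.ne']
  rw [h7] at h6
  rw [div_le_iff₀ (choose_pos' hn)]
  have hda := t_nonneg ha
  have hdb := t_nonneg hb
  calc c r (a + b - 1) n ≤ c r a k + c r b (n - k) := h1
    _ ≤ t r a * k.choose r + t r b * (n - k).choose r := add_le_add h3 h4
    _ ≤ t r a * (((k : ℝ) / n) ^ r * (n.choose r : ℝ)) +
          t r b * ((1 - (k : ℝ) / n) ^ r * (n.choose r : ℝ)) :=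
        add_le_add (mul_le_mul_of_nonneg_left h5 hda) (mul_le_mul_of_nonneg_left h6 hdb)
    _ = _ := by ring

/-- Superadditivity of `t^{-1/(r-1)}`. -/
lemma t_superadd {s a b : ℕ} (ha : s + 1 ≤ a) (hb : s + 1 ≤ b) {A B : ℝ} (hA : 0 < A) (hB : 0 < B)
    (hdA : A ^ s * t (s + 1) a ≤ 1) (hdB : B ^ s * t (s + 1) b ≤ 1) :
    (A + B) ^ s * t (s + 1) (a + b - 1) ≤ 1 := by
  have hAB : 0 < A + B := by positivity
  have h := t_add_le ha hb (by omega) (x := A / (A + B)) (by positivity)
    (by rw [div_le_one hAB]; linarith)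
  have hx : 1 - A / (A + B) = B / (A + B) := by field_simp; ring
  rw [hx] at h
  have h1 : t (s + 1) a ≤ 1 / A ^ s := by
    rw [le_div_iff₀ (by positivity)]; linarith
  have h2 : t (s + 1) b ≤ 1 / B ^ s := by
    rw [le_div_iff₀ (by positivity)]; linarith
  have h3 : t (s + 1) (a + b - 1) ≤ 1 / (A + B) ^ s := by
    calc t (s + 1) (a + b - 1) ≤ t (s + 1) a * (A / (A + B)) ^ (s + 1) +
          t (s + 1) b * (B / (A + B)) ^ (s + 1) := h
      _ ≤ (1 / A ^ s) * (A / (A + B)) ^ (s + 1) + (1 / B ^ s) * (B / (A + B)) ^ (s + 1) :=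
        add_le_add (mul_le_mul_of_nonneg_right h1 (by positivity))
          (mul_le_mul_of_nonneg_right h2 (by positivity))
      _ = 1 / (A + B) ^ s := by
        rw [div_pow, div_pow, pow_succ, pow_succ, pow_succ]
        field_simp
  rw [le_div_iff₀ (by positivity)] at h3
  linarith

/-- at `m = r` a cover is everything -/
lemma t_self (r : ℕ) : t r r = 1 := by
  refine tendsto_nhds_unique (tendsto_c r r) ?_
  refine (tendsto_const_nhds (x := (1 : ℝ))).congr' ?_
  filter_upwards [eventually_ge_atTop r] with n hn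
  obtain ⟨F, hF, hFc⟩ := exists_cov (le_refl r) n
  have h1 : F = (univ : Finset (Fin n)).powersetCard r := by
    apply Finset.Subset.antisymm
    · intro e he
      exact mem_powersetCard.2 ⟨subset_univ _, hF.1 e he⟩
    · intro S hS
      obtain ⟨e, he, heS⟩ := hF.2 S (mem_powersetCard.1 hS).2
      have : e = S := eq_of_subset_of_card_le heS (by
        rw [hF.1 e he, (mem_powersetCard.1 hS).2])
      rw [← this]; exact he
  rw [← hFc, h1, card_powersetCard, card_univ, Fintype.card_fin, div_self (choose_pos' hn).ne']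

end Pool.Agent.H688R3.TuranGen
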