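import Pool.Agent.H688R3.TuranGenBase
import Pool.Agent.H449R2.DC.Forms
import Pool.Agent.H369R2.TD.Num
import Pool.Agent.H369R2.TD.Link

/-!
For every uniformity `r ≥ 3` the sequence `(m - 1)^(r-1) (1 - π(K_m^r))` converges to its infimum.
-/

set_option autoImplicit false

open Finset Filter Topology

namespace Pool.Agent.H688R3.TuranGen

open Pool.Agent.H120R2.Clique

lemma choose_le_pow' (n r : ℕ) : (r.factorial : ℝ) * (n.choose r : ℝ) ≤ (n : ℝ) ^ r := by
  have h := Nat.descFactorial_eq_factorial_mul_choose n r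
  have h2 := Nat.descFactorial_le_pow n r
  rw [h] at h2
  exact_mod_cast h2

/-- the lower bound, uniform in `m` -/
lemma t_lower {r m : ℕ} (hr : 3 ≤ r) (hm : r < m) :
    (1 + 1 / (2 ^ (2 * r + 26) * (r : ℝ) ^ 9)) * ((r - 1).factorial : ℝ) ≤
      ((m : ℝ) - 1) ^ (r - 1) * t r m := by
  have hr0 : (0 : ℝ) < r := by exact_mod_cast (show 0 < r by omega)
  have hm1 : (0 : ℝ) < (m : ℝ) - 1 := by
    have : (1 : ℝ) < m := by exact_mod_cast (show 1 < m by omega)
    linarith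
  set E : ℝ := 1 + 1 / (2 ^ (2 * r + 26) * (r : ℝ) ^ 9) with hE
  have hE0 : 0 < E := by rw [hE]; positivity
  have hfac : (r.factorial : ℝ) = r * ((r - 1).factorial : ℝ) := by
    have : r.factorial = r * (r - 1).factorial := (Nat.mul_factorial_pred (by omega)).symm
    rw [this]; push_cast; ring
  have hkey : E * ((r - 1).factorial : ℝ) / ((m : ℝ) - 1) ^ (r - 1) ≤ t r m := by
    refine ge_of_tendsto (tendsto_c r m) ?_
    filter_upwards [eventually_ge_atTop r,
      eventually_ge_atTop (2 ^ (2 * r + 29) * r ^ 9 * (r ^ 3 + 3) * m)] with n hn hn2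
    obtain ⟨F, hF, hFc⟩ := exists_cov hm.le n
    have h1 := Pool.Agent.H449R2.DC.all_k hr hm hn2 hF.1 hF.2
    rw [hFc] at h1
    have h2 := choose_le_pow' n r
    rw [le_div_iff₀ (choose_pos' hn)]
    refine le_trans ?_ h1
    rw [hfac] at h2
    have h3 : ((r - 1).factorial : ℝ) * (n.choose r : ℝ) ≤ (n : ℝ) ^ r / r := by
      rw [le_div_iff₀ hr0]; linarith
    calc E * ((r - 1).factorial : ℝ) / ((m : ℝ) - 1) ^ (r - 1) * (n.choose r : ℝ)
        = E * ((((r - 1).factorial : ℝ) * (n.choose r : ℝ)) / ((m : ℝ) - 1) ^ (r - 1)) := by ring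
      _ ≤ E * (((n : ℝ) ^ r / r) / ((m : ℝ) - 1) ^ (r - 1)) := by
          apply mul_le_mul_of_nonneg_left _ hE0.le
          exact div_le_div_of_nonneg_right h3 (by positivity)
      _ = E * ((n : ℝ) ^ r / (r * ((m : ℝ) - 1) ^ (r - 1))) := by rw [div_div]
  rw [div_le_iff₀ (by positivity)] at hkey
  linarith

lemma E_gt {r : ℕ} (hr : 3 ≤ r) :
    ((r - 1).factorial : ℝ) <
      (1 + 1 / (2 ^ (2 * r + 26) * (r : ℝ) ^ 9)) * ((r - 1).factorial : ℝ) := by
  have hr0 : (0 : ℝ) < r := by exact_mod_cast (show 0 < r by omega)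
  have h1 : (0 : ℝ) < 1 / (2 ^ (2 * r + 26) * (r : ℝ) ^ 9) := by positivity
  have h2 : (0 : ℝ) < ((r - 1).factorial : ℝ) := by exact_mod_cast Nat.factorial_pos _
  nlinarith

lemma t_pos {r m : ℕ} (hr : 3 ≤ r) (hm : r ≤ m) : 0 < t r m := by
  rcases Nat.lt_or_eq_of_le hm with h | h
  · have h1 := t_lower hr h
    have h2 := E_gt hr
    have h3 : (0 : ℝ) < ((r - 1).factorial : ℝ) := by exact_mod_cast Nat.factorial_pos _
    have hm1 : (0 : ℝ) < (m : ℝ) - 1 := by
      have : (1 : ℝ) < m := by exact_mod_cast (show 1 < m by omega)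
      linarith
    by_contra hcon
    push Not at hcon
    have : ((m : ℝ) - 1) ^ (r - 1) * t r m ≤ 0 :=
      mul_nonpos_of_nonneg_of_nonpos (by positivity) hcon
    linarith
  · rw [← h, t_self]; norm_num

section

variable {s : ℕ}

/-- the superadditive function -/
noncomputable def S (s x : ℕ) : ℝ := (t (s + 1) (x + 1)) ^ (-(1 / (s : ℝ)))

lemma S_pos (hs : 2 ≤ s) {x : ℕ} (hx : s ≤ x) : 0 < S s x :=
  Real.rpow_pos_of_pos (t_pos (by omega) (by omega)) _

lemma S_pow (hs : 2 ≤ s) {x : ℕ} (hx : s ≤ x) : S s x ^ s * t (s + 1) (x + 1) = 1 := by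
  have h := t_pos (r := s + 1) (m := x + 1) (by omega) (by omega)
  have hs0 : (s : ℝ) ≠ 0 := by
    have : (0 : ℝ) < s := by exact_mod_cast (show 0 < s by omega)
    exact this.ne'
  unfold S
  rw [← Real.rpow_natCast, ← Real.rpow_mul h.le]
  have : -(1 / (s : ℝ)) * (s : ℝ) = -1 := by field_simp
  rw [this, Real.rpow_neg_one, inv_mul_cancel₀ h.ne']

lemma le_of_pow_mul (hs : 2 ≤ s) {a b T : ℝ} (ha : 0 ≤ a) (hb : 0 ≤ b) (hT : 0 < T)
    (h : a ^ s * T ≤ b ^ s * T) : a ≤ b := by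
  have h1 : a ^ s ≤ b ^ s := le_of_mul_le_mul_right h hT
  exact (pow_le_pow_iff_left₀ ha hb (by omega)).1 h1

lemma S_mono (hs : 2 ≤ s) {x : ℕ} (hx : s ≤ x) : S s x ≤ S s (x + 1) := by
  have h1 := S_pow hs hx
  have h2 := S_pow hs (x := x + 1) (by omega)
  have h3 := t_mono (r := s + 1) (m := x + 1) (by omega)
  have h4 := t_pos (r := s + 1) (m := x + 1 + 1) (by omega) (by omega)
  refine le_of_pow_mul hs (S_pos hs hx).le (S_pos hs (by omega)).le h4 ?_
  rw [h2, ← h1]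
  exact mul_le_mul_of_nonneg_left h3 (pow_nonneg (S_pos hs hx).le _)

lemma S_mono' (hs : 2 ≤ s) {x : ℕ} (hx : s ≤ x) (j : ℕ) : S s x ≤ S s (x + j) := by
  induction j with
  | zero => exact le_refl _
  | succ j ih => exact ih.trans (S_mono hs (by omega))

lemma S_add (hs : 2 ≤ s) {x y : ℕ} (hx : s ≤ x) (hy : s ≤ y) : S s x + S s y ≤ S s (x + y) := by
  have h := t_superadd (s := s) (a := x + 1) (b := y + 1) (by omega) (by omega) (S_pos hs hx)
    (S_pos hs hy) (S_pow hs hx).le (S_pow hs hy).le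
  have e : x + 1 + (y + 1) - 1 = x + y + 1 := by omega
  rw [e] at h
  have h2 := S_pow hs (x := x + y) (by omega)
  have hd := t_pos (r := s + 1) (m := x + y + 1) (by omega) (by omega)
  refine le_of_pow_mul hs (add_pos (S_pos hs hx) (S_pos hs hy)).le (S_pos hs (by omega)).le hd ?_
  rw [h2]
  exact h

/-- multiples -/
lemma S_mul (hs : 2 ≤ s) {x : ℕ} (hx : s ≤ x) (q : ℕ) :
    ((q : ℝ) + 1) * S s x ≤ S s ((q + 1) * x) := by
  induction q with
  | zero => simp
  | succ q ih =>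
    have h1 := S_add hs (x := (q + 1) * x) (y := x) (by nlinarith) hx
    have e : (q + 1) * x + x = (q + 1 + 1) * x := by ring
    rw [e] at h1
    push_cast
    linarith

/-- the subadditive function for Fekete's lemma -/
noncomputable def u (s x : ℕ) : ℝ := if x < s then 0 else - S s x

lemma u_sub (hs : 2 ≤ s) : Subadditive (u s) := by
  intro x y
  unfold u
  by_cases hx : x < s
  · by_cases hy : y < s
    · rw [if_pos hx, if_pos hy]
      split_ifs with h
      · simp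
      · have := S_pos hs (x := x + y) (by omega)
        linarith
    · rw [if_pos hx, if_neg hy, if_neg (by omega), zero_add]
      have := S_mono' hs (x := y) (by omega) x
      rw [add_comm x y]
      linarith
  · by_cases hy : y < s
    · rw [if_neg hx, if_pos hy, if_neg (by omega), add_zero]
      have := S_mono' hs (x := x) (by omega) y
      linarith
    · rw [if_neg hx, if_neg hy, if_neg (by omega)]
      have := S_add hs (x := x) (y := y) (by omega) (by omega)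
      linarith

lemma S_le (hs : 2 ≤ s) {x : ℕ} (hx : s ≤ x) : S s x ≤ x := by
  have h2 := S_pow hs hx
  have hd := t_pos (r := s + 1) (m := x + 1) (by omega) (by omega)
  refine le_of_pow_mul hs (S_pos hs hx).le (Nat.cast_nonneg _) hd ?_
  rw [h2]
  rcases Nat.lt_or_eq_of_le hx with h | h
  · have h3 := t_lower (r := s + 1) (m := x + 1) (by omega) (by omega)
    have h4 := E_gt (r := s + 1) (by omega)
    have h5 : (1 : ℝ) ≤ ((s + 1 - 1).factorial : ℝ) := by
      exact_mod_cast Nat.factorial_pos _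
    have e : (((x + 1 : ℕ) : ℝ) - 1) = x := by push_cast; ring
    rw [e] at h3
    have e2 : s + 1 - 1 = s := by omega
    rw [e2] at h3 h4 h5
    linarith
  · rw [← h, t_self, mul_one]
    have : (1 : ℝ) ≤ s := by exact_mod_cast (show 1 ≤ s by omega)
    exact one_le_pow₀ this

lemma u_bdd (hs : 2 ≤ s) : BddBelow (Set.range fun n => u s n / n) := by
  refine ⟨-1, ?_⟩
  rintro _ ⟨n, rfl⟩
  dsimp only
  by_cases hn : n < s
  · have : u s n = 0 := by unfold u; rw [if_pos hn]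
    rw [this]; simp
  · have hn0 : (0 : ℝ) < n := by exact_mod_cast (show 0 < n by omega)
    have : u s n = - S s n := by unfold u; rw [if_neg hn]
    rw [this, le_div_iff₀ hn0]
    have := S_le hs (x := n) (by omega)
    linarith

/-- the limit of `S x / x` -/
theorem exists_rate (hs : 2 ≤ s) : ∃ l : ℝ, 0 < l ∧
    Tendsto (fun x : ℕ => S s x / x) atTop (𝓝 l) ∧ ∀ x : ℕ, s ≤ x → S s x / x ≤ l := by
  have h1 := (u_sub hs).tendsto_lim (u_bdd hs)
  have hle : ∀ x : ℕ, s ≤ x → S s x / x ≤ - (u_sub hs).lim := by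
    intro x hx
    have h2 := (u_sub hs).lim_le_div (u_bdd hs) (n := x) (by omega)
    have : u s x = - S s x := by unfold u; rw [if_neg (by omega)]
    rw [this, neg_div] at h2
    linarith
  refine ⟨- (u_sub hs).lim, ?_, ?_, hle⟩
  · have h2 := hle s le_rfl
    have h3 : 0 < S s s / (s : ℝ) :=
      div_pos (S_pos hs le_rfl) (by exact_mod_cast (show 0 < s by omega))
    linarith
  · refine h1.neg.congr' ?_
    filter_upwards [eventually_ge_atTop s] with x hx
    have : u s x = - S s x := by unfold u; rw [if_neg (by omega)]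
    rw [this, neg_div, neg_neg]

lemma seq_eq (hs : 2 ≤ s) {m : ℕ} (hm : s + 1 ≤ m) :
    ((m : ℝ) - 1) ^ s * t (s + 1) m = ((S s (m - 1) / ((m - 1 : ℕ) : ℝ)) ^ s)⁻¹ := by
  have h := S_pow hs (x := m - 1) (by omega)
  have e : m - 1 + 1 = m := by omega
  rw [e] at h
  have hS := S_pos hs (x := m - 1) (by omega)
  have hc : ((m - 1 : ℕ) : ℝ) = (m : ℝ) - 1 := by
    rw [Nat.cast_sub (by omega)]; simp
  have hm' : (1 : ℝ) < m := by exact_mod_cast (show 1 < m by omega)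
  have hm1 : 0 < (m : ℝ) - 1 := by linarith
  rw [hc, div_pow, inv_div]
  rw [eq_div_iff (by positivity)]
  linear_combination ((m : ℝ) - 1) ^ s * h

/-- `(m - 1)^s (1 - π(K_m^(s+1)))` converges to its infimum. -/
theorem exists_limit (hs : 2 ≤ s) : ∃ L : ℝ,
    (1 + 1 / (2 ^ (2 * (s + 1) + 26) * ((s + 1 : ℕ) : ℝ) ^ 9)) * (s.factorial : ℝ) ≤ L ∧
    Tendsto (fun m : ℕ => ((m : ℝ) - 1) ^ s * t (s + 1) m) atTop (𝓝 L) ∧
    ∀ m : ℕ, s + 1 ≤ m → L ≤ ((m : ℝ) - 1) ^ s * t (s + 1) m := by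
  obtain ⟨l, hl, ht, hle⟩ := exists_rate hs
  have hlim : Tendsto (fun m : ℕ => ((m : ℝ) - 1) ^ s * t (s + 1) m) atTop (𝓝 ((l ^ s)⁻¹)) := by
    have h1 : Tendsto (fun m : ℕ => S s (m - 1) / ((m - 1 : ℕ) : ℝ)) atTop (𝓝 l) :=
      ht.comp (tendsto_sub_atTop_nat 1)
    have h2 := (h1.pow s).inv₀ (by positivity)
    refine h2.congr' ?_
    filter_upwards [eventually_ge_atTop (s + 1)] with m hm
    exact (seq_eq hs hm).symm
  have hall : ∀ m : ℕ, s + 1 ≤ m → (l ^ s)⁻¹ ≤ ((m : ℝ) - 1) ^ s * t (s + 1) m := by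
    intro m hm
    rw [seq_eq hs hm]
    have h3 := hle (m - 1) (by omega)
    have hpos : 0 < S s (m - 1) / ((m - 1 : ℕ) : ℝ) :=
      div_pos (S_pos hs (by omega)) (by exact_mod_cast (show 0 < m - 1 by omega))
    apply inv_anti₀ (by positivity)
    exact pow_le_pow_left₀ hpos.le h3 s
  refine ⟨(l ^ s)⁻¹, ?_, hlim, hall⟩
  refine ge_of_tendsto hlim ?_
  filter_upwards [eventually_ge_atTop (s + 2)] with m hm
  have h1 := t_lower (r := s + 1) (m := m) (by omega) (by omega)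
  have e2 : s + 1 - 1 = s := by omega
  rw [e2] at h1
  exact h1

/-- the bound at multiples of `m - 1` -/
theorem t_div (hs : 2 ≤ s) {j m : ℕ} (hj : s + 1 ≤ j) (hm : j ≤ m) :
    ((((m - 1) / (j - 1) : ℕ)) : ℝ) ^ s * t (s + 1) m ≤ t (s + 1) j := by
  obtain ⟨x, rfl⟩ : ∃ x, j = x + 1 := ⟨j - 1, by omega⟩
  obtain ⟨y, rfl⟩ : ∃ y, m = y + 1 := ⟨m - 1, by omega⟩
  have e1 : x + 1 - 1 = x := by omega
  have e2 : y + 1 - 1 = y := by omega
  rw [e1, e2]
  have hq : 1 ≤ y / x := (Nat.one_le_div_iff (by omega)).2 (by omega)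
  obtain ⟨q, hq⟩ : ∃ q, y / x = q + 1 := ⟨y / x - 1, by omega⟩
  have hle : (q + 1) * x ≤ y := by rw [← hq]; exact Nat.div_mul_le_self y x
  have h1 := S_mul hs (x := x) (by omega) q
  obtain ⟨w, hw⟩ := Nat.exists_eq_add_of_le hle
  have h2 := S_mono' hs (x := (q + 1) * x) (by nlinarith) w
  rw [← hw] at h2
  have h3 := h1.trans h2
  have hy := S_pow hs (x := y) (by omega)
  have hx := S_pow hs (x := x) (by omega)
  have hty := t_pos (r := s + 1) (m := y + 1) (by omega) (by omega)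
  have htx := t_pos (r := s + 1) (m := x + 1) (by omega) (by omega)
  have hSx := S_pos hs (x := x) (by omega)
  rw [hq]
  push_cast
  have h4 : (((q : ℝ) + 1) * S s x) ^ s * t (s + 1) (y + 1) ≤ 1 :=
    (mul_le_mul_of_nonneg_right (pow_le_pow_left₀ (by positivity) h3 s) hty.le).trans hy.le
  rw [mul_pow] at h4
  have h5 : ((q : ℝ) + 1) ^ s * t (s + 1) (y + 1) * S s x ^ s ≤ t (s + 1) (x + 1) * S s x ^ s := by
    calc ((q : ℝ) + 1) ^ s * t (s + 1) (y + 1) * S s x ^ s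
        = ((q : ℝ) + 1) ^ s * S s x ^ s * t (s + 1) (y + 1) := by ring
      _ ≤ 1 := h4
      _ = t (s + 1) (x + 1) * S s x ^ s := by rw [← hx]; ring
  exact le_of_mul_le_mul_right h5 (by positivity)

end

/-- The bound at `m = r + 1` for all large `r`. -/
theorem eventually_bound : ∃ r₀ : ℕ, 3 ≤ r₀ ∧ ∀ r : ℕ, r₀ ≤ r →
    t r (r + 1) ≤ (2081 / 1000) / ((r : ℝ) + 1) := by
  obtain ⟨r₁, h⟩ := eventually_atTop.1 Pool.Agent.H369R2.TD.tur_2081
  refine ⟨max r₁ 3, le_max_right _ _, fun r hr => ?_⟩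
  have h1 := Pool.Agent.H369R2.TD.density_of_tur (h r ((le_max_left _ _).trans hr))
  unfold t
  linarith

/-- Main theorem. -/
theorem main : ∃ r₀ : ℕ, ∀ r : ℕ, 3 ≤ r → ∃ L : ℝ,
    (1 + 1 / (2 ^ (2 * r + 26) * (r : ℝ) ^ 9)) * ((r - 1).factorial : ℝ) ≤ L ∧
    L ≤ ((r : ℝ) - 1) ^ (r - 1) ∧
    Tendsto (fun m : ℕ => ((m : ℝ) - 1) ^ (r - 1) * (1 - turanDensity r m)) atTop (𝓝 L) ∧
    (∀ m : ℕ, r ≤ m → L ≤ ((m : ℝ) - 1) ^ (r - 1) * (1 - turanDensity r m)) ∧
    (r₀ ≤ r → L ≤ (2081 / 1000) * (r : ℝ) ^ (r - 1) / ((r : ℝ) + 1) ∧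
      ∀ m : ℕ, r < m → 1 - turanDensity r m ≤
        (2081 / 1000) / (((r : ℝ) + 1) * (((m - 1) / r : ℕ) : ℝ) ^ (r - 1))) := by
  obtain ⟨r₀, h0, hr0⟩ := eventually_bound
  refine ⟨r₀, fun r hr => ?_⟩
  obtain ⟨s, rfl⟩ : ∃ s, r = s + 1 := ⟨r - 1, by omega⟩
  have e2 : s + 1 - 1 = s := by omega
  obtain ⟨L, h1, h2, h3⟩ := exists_limit (s := s) (by omega)
  rw [e2]
  refine ⟨L, h1, ?_, h2, h3, fun hr1 => ⟨?_, fun m hm => ?_⟩⟩
  · have := h3 (s + 1) le_rfl
    rw [t_self, mul_one] at this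
    exact this
  · have h4 := h3 (s + 1 + 1) (by omega)
    have h5 := hr0 (s + 1) hr1
    have e : (((s + 1 + 1 : ℕ) : ℝ) - 1) = ((s + 1 : ℕ) : ℝ) := by push_cast; ring
    rw [e] at h4
    refine h4.trans ?_
    calc ((s + 1 : ℕ) : ℝ) ^ s * t (s + 1) (s + 1 + 1)
        ≤ ((s + 1 : ℕ) : ℝ) ^ s * ((2081 / 1000) / (((s + 1 : ℕ) : ℝ) + 1)) :=
          mul_le_mul_of_nonneg_left h5 (by positivity)
      _ = _ := by ring
  · have h5 := hr0 (s + 1) hr1
    have h6 := t_div (s := s) (by omega) (j := s + 1 + 1) (m := m) (by omega) (by omega)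
    have e3 : s + 1 + 1 - 1 = s + 1 := by omega
    rw [e3] at h6
    have hq : 1 ≤ (m - 1) / (s + 1) := (Nat.one_le_div_iff (by omega)).2 (by omega)
    have hq' : (0 : ℝ) < (((m - 1) / (s + 1) : ℕ) : ℝ) := by exact_mod_cast hq
    have h7 := h6.trans h5
    show t (s + 1) m ≤ _
    have hp : (0 : ℝ) < (((s + 1 : ℕ) : ℝ) + 1) := by positivity
    rw [le_div_iff₀ (by positivity)]
    rw [le_div_iff₀ hp] at h7
    linarith

end Pool.Agent.H688R3.TuranGen
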